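import Pool.Agent.VTP.StmtsT
import Pool.Agent.Helper11_ZOL.MPla
import Pool.Agent.Helper24_ZOL.GFLIP
import Pool.Agent.Helper24_ZOL.MGAU
import Pool.Agent.Helper24_ZOL.FMUL
import Pool.Agent.Helper25_ZOL.Fant

set_option autoImplicit false

/-! Row FID of the squad VTP. -/

namespace Pool.Agent.VTP.H43

open Finset Pool.Agent.ZOL Pool.Agent.VTP

theorem ls_nodup (j : ℕ) : ((List.range (2 * j)).map (fun n => n + 2)).Nodup :=
  (List.nodup_range).map (fun a b h => by
    have h' : a + 2 = b + 2 := h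
    omega)

theorem zero_notMem (j : ℕ) : 0 ∉ (List.range (2 * j)).map (fun n => n + 2) := by
  intro h
  obtain ⟨a, _, ha⟩ := List.mem_map.1 h
  omega

theorem one_notMem (j : ℕ) : 1 ∉ (List.range (2 * j)).map (fun n => n + 2) := by
  intro h
  obtain ⟨a, _, ha⟩ := List.mem_map.1 h
  omega

theorem even_len (j : ℕ) : Even ((List.range (2 * j)).map (fun n => n + 2)).length := by
  rw [List.length_map, List.length_range]
  exact even_two_mul j

theorem tw_gauss (h1 : TggStmt) (j : ℕ) : IsGauss (tw j) :=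
  h1.1 _ tov (ls_nodup j) (zero_notMem j) (one_notMem j)

theorem tw_planar (h2 : TpgStmt) (j : ℕ) : Planar (shadow (tw j)) :=
  h2.1 _ tov (ls_nodup j) (zero_notMem j) (one_notMem j) (even_len j)

theorem zero_mem_labels (j : ℕ) : 0 ∈ labels (tw j) := by
  unfold labels
  rw [List.mem_toFinset, List.mem_map]
  refine ⟨(0, false, tov 0), ?_, rfl⟩
  unfold tw tg
  simp

theorem fid (h1 : TggStmt) (h2 : TpgStmt) (h3 : TswStmt) : FidStmt := by
  intro M hM j d x hx
  have hfch : FChStmt :=
    Pool.Agent.ZOL.H24.fch Pool.Agent.ZOL.H24.gflip Pool.Agent.ZOL.H24.mgau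
      Pool.Agent.ZOL.H11.mpla Pool.Agent.ZOL.H25.fant
  exact hfch (tw j) {0} (M j) (AddMonoidHom.id ZK) (tw_gauss h1 j) (tw_planar h2 j)
    (by
      rw [Finset.singleton_subset_iff]
      exact zero_mem_labels j)
    (fun w hw hp => hM j w hw hp)
    (fun w hw hp => ((h3 w j {0} hw hp).1
      (by
        rw [Finset.singleton_subset_iff]
        exact Finset.mem_insert_self _ _)
      (Finset.mem_singleton_self 0)).symm)
    d x hx

end Pool.Agent.VTP.H43
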